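import Pool.Agent.Helper27.Sh.Trans
set_option autoImplicit false

/-!
# No choice of the auxiliary objective functions makes the shadow vertex method polynomial

The shadow vertex rule (parametric simplex method, Gass and Saaty) with the auxiliary objective
function `w` follows the vertices which maximise `w + μ c` over `P`, as `μ` increases. The classical
exponential examples (Murty, Goldfarb) are bad for one particular `w`. Here the method may choose the
auxiliary objective functions with complete knowledge of the linear program, it may use `k` of them,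
and it may switch between them whenever it likes, any number of times: every pivot has to be a step of
the shadow vertex rule for one of these `k` functions.

For all `n` and `k` there is a bounded linear program `max c x`, `A x ≤ b`, `x ≥ 0` with `n k`
variables and `2 n k` rows, with integer coefficients of `O(n + log k)` bits, with `b > 0` and the
start vertex `0`, such that all such runs from `0` to the optimal vertex have at least `2 ^ (n - 1)`
pivots, whatever the `k` auxiliary functions are. On the other hand some simplex path from `0` to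
the optimal vertex has `(2 n - 1) k` pivots. So with `D` variables, `D ^ (1 - ε)` auxiliary
functions are not enough for a polynomial number of pivots; one for each pivot is always enough, as
every improving edge is a step of the shadow vertex rule for some `w`.

The idea. For `k = 1`: the shadow of the cube `|z i| ≤ 1 + z (i - 1) / 2` on the plane of `z n` and
`∑ 4 ^ (i - n) z i` has `2 ^ n` vertices (the signs of a vertex are the itinerary of the slope under the
tent map). We cut the cube by a simplicial cone whose normals are almost parallel, and start at its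
apex: the auxiliary function has to be in the cone of these normals, so it has no choice. In
coordinates in which the apex is the origin and the cone is `x ≥ 0`, the condition is just that all
coefficients of `w` are negative. For general `k`, `k` such polytopes `P` are put in series, where `P`
is blown up by the factor `1 + K ∑ y` over the points `y` of the next polytope, and the edges in the
directions `y` are improving only at the top of `P`; so all simplex paths go through the apex of each
of the polytopes, and each auxiliary function can be good for at most one of them.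
-/

namespace Pool.Agent.Results.MP_4d246d_lc.ShadowVertexRules

/-- The feasible set of the linear program `max c x`, `A x ≤ b`, `x ≥ 0`. -/
def feasible {m n : ℕ} (A : Fin m → Fin n → ℤ) (b : Fin m → ℤ) : Set (Fin n → ℝ) :=
  {x | (∀ j, 0 ≤ x j) ∧ ∀ i, ∑ j, (A i j : ℝ) * x j ≤ b i}

/-- The value `u x` of the linear functional `u`. -/
def value {n : ℕ} (u x : Fin n → ℝ) : ℝ := ∑ j, u j * x j

/-- The objective function `c` as a linear functional. -/
def obj {n : ℕ} (c : Fin n → ℤ) : Fin n → ℝ := fun j => (c j : ℝ)

/-- A step of the simplex method on `P` from `x` to `y`: both are vertices of `P`, the segment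
between them is an edge of `P` (it consists of the maximisers of some linear functional on `P`), and
`c x < c y`. -/
def Pivot {n : ℕ} (P : Set (Fin n → ℝ)) (c : Fin n → ℤ) (x y : Fin n → ℝ) : Prop :=
  x ∈ P.extremePoints ℝ ∧ y ∈ P.extremePoints ℝ ∧ IsExposed ℝ P (segment ℝ x y) ∧
    value (obj c) x < value (obj c) y

/-- `x` maximises the linear functional `u` over `P`. -/
def Maximiser {n : ℕ} (P : Set (Fin n → ℝ)) (u x : Fin n → ℝ) : Prop :=
  x ∈ P ∧ ∀ y ∈ P, value u y ≤ value u x

/-- `x` is the only maximiser of the linear functional `u` over `P`. -/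
def OnlyMaximiser {n : ℕ} (P : Set (Fin n → ℝ)) (u x : Fin n → ℝ) : Prop :=
  x ∈ P ∧ ∀ y ∈ P, y ≠ x → value u y < value u x

/-- A step of the shadow vertex rule with the auxiliary objective function `w` from the shadow vertex
`x` to `y`: for some real `μ` the vertex `x` is the only maximiser of `w + μ c`, and for some real
`ν` both `x` and `y` maximise `w + ν c`. -/
def ShadowStep {n : ℕ} (P : Set (Fin n → ℝ)) (c : Fin n → ℤ) (w x y : Fin n → ℝ) : Prop :=
  (∃ μ : ℝ, OnlyMaximiser P (w + μ • obj c) x) ∧
    ∃ ν : ℝ, Maximiser P (w + ν • obj c) x ∧ Maximiser P (w + ν • obj c) y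

open Pool.Agent.Helper27.Sh in
/-- **No choice of `k` auxiliary objective functions makes the shadow vertex method polynomial.** -/
theorem result (n k : ℕ) (hn : 1 ≤ n) (hk : 1 ≤ k) :
    ∃ (A : Fin (2 * n * k) → Fin (n * k) → ℤ) (b : Fin (2 * n * k) → ℤ) (c : Fin (n * k) → ℤ)
      (z : Fin (n * k) → ℝ),
      (∀ i j, |A i j| ≤ 9 * 32 ^ n) ∧ (∀ i, 1 ≤ b i ∧ b i ≤ 6) ∧
      (∀ j, |c j| ≤ k * (9 * 64 ^ n)) ∧
      Bornology.IsBounded (feasible A b) ∧
      z ∈ feasible A b ∧
      (∀ x ∈ feasible A b, x ≠ z → value (obj c) x < value (obj c) z) ∧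
      (∃ x : ℕ → Fin (n * k) → ℝ, x 0 = 0 ∧ x ((2 * n - 1) * k) = z ∧
        ∀ i < (2 * n - 1) * k, Pivot (feasible A b) c (x i) (x (i + 1))) ∧
      ∀ (N : ℕ) (x : ℕ → Fin (n * k) → ℝ) (W : Finset (Fin (n * k) → ℝ)), W.card ≤ k →
        x 0 = 0 → (∀ i < N, Pivot (feasible A b) c (x i) (x (i + 1))) →
        (∀ i < N, ∃ w ∈ W, ShadowStep (feasible A b) c w (x i) (x (i + 1))) →
        (∀ y ∈ feasible A b, value (obj c) y ≤ value (obj c) (x N)) →
        2 ^ (n - 1) ≤ N := by
  classical
  obtain ⟨m, rfl⟩ : ∃ m, n = m + 1 := ⟨n - 1, by omega⟩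
  obtain ⟨k, rfl⟩ : ∃ k', k = k' + 1 := ⟨k - 1, by omega⟩
  obtain ⟨κ, ι, fκ, fι, A, b, c, t, h1, h2, h3, h4, h5, h6, h7, h8⟩ := build m k
  let eκ : κ ≃ Fin (2 * (m + 1) * (k + 1)) := Fintype.equivFinOfCardEq h1
  let e : ι ≃ Fin ((m + 1) * (k + 1)) := Fintype.equivFinOfCardEq h2
  set A' : Fin (2 * (m + 1) * (k + 1)) → Fin ((m + 1) * (k + 1)) → ℤ :=
    fun i j => A (eκ.symm i) (e.symm j) with hA'
  set b' : Fin (2 * (m + 1) * (k + 1)) → ℤ := fun i => b (eκ.symm i) with hb'
  set c' : Fin ((m + 1) * (k + 1)) → ℤ := fun j => c (e.symm j) with hc'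
  have hP : feasible A' b' = tr e (feas A b) := by
    ext x
    have hsum : ∀ r, ∑ j, (A r (e.symm j) : ℝ) * x j = ∑ i, (A r i : ℝ) * (x ∘ e) i := by
      intro r
      rw [← Equiv.sum_comp e]
      simp
    constructor
    · rintro ⟨h9, h10⟩
      refine ⟨fun j => h9 (e j), fun r => ?_⟩
      rw [← hsum]
      have := h10 (eκ r)
      simpa [hA', hb'] using this
    · rintro ⟨h9, h10⟩
      refine ⟨fun j => ?_, fun r => ?_⟩
      · have := h9 (e.symm j)
        simpa using this
      · show ∑ j, (A (eκ.symm r) (e.symm j) : ℝ) * x j ≤ b (eκ.symm r)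
        rw [hsum]
        exact h10 _
  have hce : obj c' ∘ e = fun j => (c j : ℝ) := by
    ext j; simp [obj, hc']
  have hval : ∀ u x : Fin ((m + 1) * (k + 1)) → ℝ, value u x = u ⬝ᵥ x := fun u x => rfl
  have hvc : ∀ x : Fin ((m + 1) * (k + 1)) → ℝ, value (obj c') x =
      (fun j => (c j : ℝ)) ⬝ᵥ (x ∘ e) := by
    intro x
    rw [hval, ← dot_comp e, hce]
  have hte : (t ∘ e.symm) ∘ e = t := by
    rw [Function.comp_assoc, Equiv.symm_comp_self, Function.comp_id]
  have hpiv : ∀ x y : Fin ((m + 1) * (k + 1)) → ℝ,
      Step (feas A b) (fun j => (c j : ℝ)) (x ∘ e) (y ∘ e) → Pivot (feasible A' b') c' x y := by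
    rintro x y ⟨h9, h10⟩
    have h11 := (edge_tr e).2 h9
    rw [hP]
    refine ⟨h11.ext_left, h11.ext_right, edge_iff.1 h11, ?_⟩
    rw [hvc, hvc]
    exact h10
  have hpiv' : ∀ x y : Fin ((m + 1) * (k + 1)) → ℝ, Pivot (feasible A' b') c' x y →
      Step (feas A b) (fun j => (c j : ℝ)) (x ∘ e) (y ∘ e) := by
    rintro x y ⟨-, -, h9, h10⟩
    rw [hP] at h9
    rw [hvc, hvc] at h10
    exact ⟨(edge_tr e).1 (edge_iff.2 h9), h10⟩
  have h0e : (0 : Fin ((m + 1) * (k + 1)) → ℝ) ∘ e = 0 := rfl
  refine ⟨A', b', c', t ∘ e.symm, fun i j => h3 _ _, fun i => h4 _, fun j => ?_, ?_, ?_, ?_, ?_, ?_⟩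
  · have := h5 (e.symm j)
    push_cast
    exact this
  · obtain ⟨B, hB⟩ := h6.bdd
    refine (Metric.isBounded_Icc (0 : Fin ((m + 1) * (k + 1)) → ℝ) (fun _ => B)).subset ?_
    intro x hx
    rw [hP] at hx
    refine ⟨fun j => ?_, fun j => ?_⟩
    · have := h6.nonneg _ hx (e.symm j)
      simpa using this
    · have := hB _ hx (e.symm j)
      simpa using this
  · rw [hP]
    show (t ∘ e.symm) ∘ e ∈ feas A b
    rw [hte]
    exact h6.top
  · intro x hx hne
    rw [hvc, hvc, hte, h6.val]
    rw [hP] at hx
    refine h6.uniq _ hx (fun h => hne ?_)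
    have := congrArg (fun z => z ∘ e.symm) h
    simpa [Function.comp_assoc] using this
  · obtain ⟨x, hx0, hxL, hx⟩ := h8
    have e1 : (2 * (m + 1) - 1) * (k + 1) = (k + 1) * (2 * m + 1) := by
      rw [show 2 * (m + 1) - 1 = 2 * m + 1 by omega]; ring
    refine ⟨fun i => x i ∘ e.symm, ?_, ?_, fun i hi => hpiv _ _ ?_⟩
    · dsimp only; rw [hx0]; rfl
    · dsimp only; rw [e1, hxL]
    · dsimp only
      rw [Function.comp_assoc, Function.comp_assoc, Equiv.symm_comp_self, Function.comp_id,
        Function.comp_id]
      exact hx i (by rw [← e1]; exact hi)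
  · intro N x W hW hx0 hx hsh hopt
    have hxN : x N ∘ e = t := by
      by_contra hne
      have h9 : x N ∈ feasible A' b' := by
        rcases Nat.eq_zero_or_pos N with h | h
        · rw [h, hx0, hP]
          exact h6.zero
        · obtain ⟨j, rfl⟩ : ∃ j, N = j + 1 := ⟨N - 1, by omega⟩
          exact (hx j (by omega)).2.1.1
      rw [hP] at h9
      have h10 := h6.uniq _ h9 hne
      have h11 := hopt (t ∘ e.symm) (by
        rw [hP]
        show (t ∘ e.symm) ∘ e ∈ feas A b
        rw [hte]
        exact h6.top)
      rw [hvc, hvc, hte, h6.val] at h11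
      linarith
    have := h7 N (fun i => x i ∘ e) (W.image fun w => w ∘ e) (by rw [hx0]; rfl) hxN
      (fun i hi => hpiv' _ _ (hx i hi)) (Finset.card_image_le.trans hW) (fun i hi => ?_)
    · simpa using this
    · obtain ⟨w, hw, ⟨μ, h9⟩, ν, h10, h11⟩ := hsh i hi
      have hcomb : ∀ r : ℝ, (w + r • obj c') ∘ e = w ∘ e + r • fun j => (c j : ℝ) := by
        intro r
        rw [← hce]
        rfl
      rw [hP] at h9 h10 h11
      refine ⟨w ∘ e, Finset.mem_image.2 ⟨w, hw, rfl⟩, ⟨μ, ?_⟩, ν, ?_, ?_⟩
      · rw [← hcomb]; exact (only_tr e).1 h9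
      · rw [← hcomb]; exact (maxi_tr e).1 h10
      · rw [← hcomb]; exact (maxi_tr e).1 h11

end Pool.Agent.Results.MP_4d246d_lc.ShadowVertexRules
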